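import Mathlib
import Pool.Agent.Helper86.Ac.Goals

/-! Packet AVG: averaging over all six-tuples. -/

namespace Pool.Agent.Helper74.Ac

open Pool.Agent.Helper86.Ac Pool.Agent.Helper86.Acute

open Finset

/-- renaming the variables of a sum over tuples -/
lemma sum_rename {α : Type} [Fintype α] {m : ℕ} (G : (Fin m → α) → ℤ) (t : Fin m → Fin m)
    (ht : Function.Bijective t) :
    ∑ x : Fin m → α, G (fun j => x (t j)) = ∑ x : Fin m → α, G x := by
  classical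
  have h := Equiv.sum_comp ((Equiv.ofBijective t ht).symm.arrowCongr (Equiv.refl α)) G
  rw [← h]
  refine Finset.sum_congr rfl fun x _ => ?_
  congr 1

/-- renaming the variables of a sum over six-tuples -/
lemma perm6 {α : Type} [Fintype α] (D : α → α → α → α → α → α → ℤ) (i0 i1 i2 i3 i4 i5 : Fin 6)
    (h : Function.Bijective ![i0, i1, i2, i3, i4, i5]) :
    ∑ x : Fin 6 → α, D (x i0) (x i1) (x i2) (x i3) (x i4) (x i5) =
      ∑ x : Fin 6 → α, D (x 0) (x 1) (x 2) (x 3) (x 4) (x 5) :=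
  sum_rename (fun x => D (x 0) (x 1) (x 2) (x 3) (x 4) (x 5)) ![i0, i1, i2, i3, i4, i5] h

/-- renaming the variables of a sum over four-tuples -/
lemma perm4 {α : Type} [Fintype α] (D : α → α → α → α → ℤ) (i0 i1 i2 i3 : Fin 4)
    (h : Function.Bijective ![i0, i1, i2, i3]) :
    ∑ x : Fin 4 → α, D (x i0) (x i1) (x i2) (x i3) =
      ∑ x : Fin 4 → α, D (x 0) (x 1) (x 2) (x 3) :=
  sum_rename (fun x => D (x 0) (x 1) (x 2) (x 3)) ![i0, i1, i2, i3] h

/-- sum over tuples as an iterated sum -/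
lemma sum_succ {α : Type} [Fintype α] {m : ℕ} (G : (Fin (m + 1) → α) → ℤ) :
    ∑ x : Fin (m + 1) → α, G x = ∑ a : α, ∑ y : Fin m → α, G (Fin.cons a y) := by
  classical
  rw [← (Fin.consEquiv (fun _ : Fin (m + 1) => α)).sum_comp, Fintype.sum_prod_type]
  rfl

/-- sum over six-tuples as an iterated sum -/
lemma iter6 {α : Type} [Fintype α] (D : α → α → α → α → α → α → ℤ) :
    ∑ x : Fin 6 → α, D (x 0) (x 1) (x 2) (x 3) (x 4) (x 5) =
      ∑ a, ∑ b, ∑ c, ∑ d, ∑ e, ∑ f, D a b c d e f := by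
  classical
  rw [sum_succ]; refine Finset.sum_congr rfl fun a _ => ?_
  rw [sum_succ]; refine Finset.sum_congr rfl fun b _ => ?_
  rw [sum_succ]; refine Finset.sum_congr rfl fun c _ => ?_
  rw [sum_succ]; refine Finset.sum_congr rfl fun d _ => ?_
  rw [sum_succ]; refine Finset.sum_congr rfl fun e _ => ?_
  rw [sum_succ]; refine Finset.sum_congr rfl fun f _ => ?_
  rw [Fintype.sum_unique]
  rfl

/-- sum over four-tuples as an iterated sum -/
lemma iter4 {α : Type} [Fintype α] (D : α → α → α → α → ℤ) :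
    ∑ x : Fin 4 → α, D (x 0) (x 1) (x 2) (x 3) = ∑ a, ∑ b, ∑ c, ∑ d, D a b c d := by
  classical
  rw [sum_succ]; refine Finset.sum_congr rfl fun a _ => ?_
  rw [sum_succ]; refine Finset.sum_congr rfl fun b _ => ?_
  rw [sum_succ]; refine Finset.sum_congr rfl fun c _ => ?_
  rw [sum_succ]; refine Finset.sum_congr rfl fun d _ => ?_
  rw [Fintype.sum_unique]
  rfl
/-- the total of the sixty terms -/
lemma sum_KT {α : Type} [Fintype α] (D2 D4 : α → α → α → α → α → α → ℤ) :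
    ∑ x : Fin 6 → α, KT D2 D4 (x 0) (x 1) (x 2) (x 3) (x 4) (x 5) =
      45 * (∑ x : Fin 6 → α, D2 (x 0) (x 1) (x 2) (x 3) (x 4) (x 5)) +
      15 * (∑ x : Fin 6 → α, D4 (x 0) (x 1) (x 2) (x 3) (x 4) (x 5)) := by
  have e2 : ∀ i0 i1 i2 i3 i4 i5 : Fin 6, Function.Bijective ![i0, i1, i2, i3, i4, i5] →
      ∑ x : Fin 6 → α, D2 (x i0) (x i1) (x i2) (x i3) (x i4) (x i5) =
      ∑ x : Fin 6 → α, D2 (x 0) (x 1) (x 2) (x 3) (x 4) (x 5) := perm6 D2
  have e4 : ∀ i0 i1 i2 i3 i4 i5 : Fin 6, Function.Bijective ![i0, i1, i2, i3, i4, i5] →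
      ∑ x : Fin 6 → α, D4 (x i0) (x i1) (x i2) (x i3) (x i4) (x i5) =
      ∑ x : Fin 6 → α, D4 (x 0) (x 1) (x 2) (x 3) (x 4) (x 5) := perm6 D4
  simp only [KT, Finset.sum_add_distrib]
  have h1 := e2 0 1 2 4 3 5 (by decide)
  have h2 := e2 0 1 2 5 3 4 (by decide)
  have h3 := e2 0 2 1 3 4 5 (by decide)
  have h4 := e2 0 2 1 4 3 5 (by decide)
  have h5 := e2 0 2 1 5 3 4 (by decide)
  have h6 := e2 0 3 1 2 4 5 (by decide)
  have h7 := e2 0 3 1 4 2 5 (by decide)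
  have h8 := e2 0 3 1 5 2 4 (by decide)
  have h9 := e2 0 4 1 2 3 5 (by decide)
  have h10 := e2 0 4 1 3 2 5 (by decide)
  have h11 := e2 0 4 1 5 2 3 (by decide)
  have h12 := e2 0 5 1 2 3 4 (by decide)
  have h13 := e2 0 5 1 3 2 4 (by decide)
  have h14 := e2 0 5 1 4 2 3 (by decide)
  have h15 := e2 1 2 0 3 4 5 (by decide)
  have h16 := e2 1 2 0 4 3 5 (by decide)
  have h17 := e2 1 2 0 5 3 4 (by decide)
  have h18 := e2 1 3 0 2 4 5 (by decide)
  have h19 := e2 1 3 0 4 2 5 (by decide)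
  have h20 := e2 1 3 0 5 2 4 (by decide)
  have h21 := e2 1 4 0 2 3 5 (by decide)
  have h22 := e2 1 4 0 3 2 5 (by decide)
  have h23 := e2 1 4 0 5 2 3 (by decide)
  have h24 := e2 1 5 0 2 3 4 (by decide)
  have h25 := e2 1 5 0 3 2 4 (by decide)
  have h26 := e2 1 5 0 4 2 3 (by decide)
  have h27 := e2 2 3 0 1 4 5 (by decide)
  have h28 := e2 2 3 0 4 1 5 (by decide)
  have h29 := e2 2 3 0 5 1 4 (by decide)
  have h30 := e2 2 4 0 1 3 5 (by decide)
  have h31 := e2 2 4 0 3 1 5 (by decide)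
  have h32 := e2 2 4 0 5 1 3 (by decide)
  have h33 := e2 2 5 0 1 3 4 (by decide)
  have h34 := e2 2 5 0 3 1 4 (by decide)
  have h35 := e2 2 5 0 4 1 3 (by decide)
  have h36 := e2 3 4 0 1 2 5 (by decide)
  have h37 := e2 3 4 0 2 1 5 (by decide)
  have h38 := e2 3 4 0 5 1 2 (by decide)
  have h39 := e2 3 5 0 1 2 4 (by decide)
  have h40 := e2 3 5 0 2 1 4 (by decide)
  have h41 := e2 3 5 0 4 1 2 (by decide)
  have h42 := e2 4 5 0 1 2 3 (by decide)
  have h43 := e2 4 5 0 2 1 3 (by decide)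
  have h44 := e2 4 5 0 3 1 2 (by decide)
  have h45 := e4 2 3 4 5 0 1 (by decide)
  have h46 := e4 1 3 4 5 0 2 (by decide)
  have h47 := e4 1 2 4 5 0 3 (by decide)
  have h48 := e4 1 2 3 5 0 4 (by decide)
  have h49 := e4 1 2 3 4 0 5 (by decide)
  have h50 := e4 0 3 4 5 1 2 (by decide)
  have h51 := e4 0 2 4 5 1 3 (by decide)
  have h52 := e4 0 2 3 5 1 4 (by decide)
  have h53 := e4 0 2 3 4 1 5 (by decide)
  have h54 := e4 0 1 4 5 2 3 (by decide)
  have h55 := e4 0 1 3 5 2 4 (by decide)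
  have h56 := e4 0 1 3 4 2 5 (by decide)
  have h57 := e4 0 1 2 5 3 4 (by decide)
  have h58 := e4 0 1 2 4 3 5 (by decide)
  rw [h1, h2, h3, h4, h5, h6, h7, h8, h9, h10, h11, h12, h13, h14, h15, h16, h17, h18, h19, h20, h21, h22, h23, h24, h25, h26, h27, h28, h29, h30, h31, h32, h33, h34, h35, h36, h37, h38, h39, h40, h41, h42, h43, h44, h45, h46, h47, h48, h49, h50, h51, h52, h53, h54, h55, h56, h57, h58]
  ring

/-- terms with two common points -/
lemma s2_lower {n : ℕ} (phi : ℕ → Fin n → Fin n → Fin n → Fin n → ℤ)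
    (ac : Fin n → Fin n → Fin n → Fin n → ℤ)
    (D : Fin n → Fin n → Fin n → Fin n → Fin n → Fin n → ℤ)
    (hD : D = fun p q a b c d => ac p q a b + ac p q c d +
        ∑ k ∈ Finset.range 11, phi k p q a b * phi k p q c d) :
    2 * (n : ℤ) ^ 2 * (∑ x : Fin 4 → Fin n, ac (x 0) (x 1) (x 2) (x 3)) ≤
      ∑ x : Fin 6 → Fin n, D (x 0) (x 1) (x 2) (x 3) (x 4) (x 5) := by
  rw [iter6, iter4, Finset.mul_sum, hD]
  refine Finset.sum_le_sum fun p _ => ?_
  rw [Finset.mul_sum]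
  refine Finset.sum_le_sum fun q _ => ?_
  have h1 : ∑ a, ∑ b, ∑ c, ∑ d, (ac p q a b + ac p q c d +
        ∑ k ∈ Finset.range 11, phi k p q a b * phi k p q c d) =
      2 * (n : ℤ) ^ 2 * (∑ a, ∑ b, ac p q a b) +
        ∑ k ∈ Finset.range 11, (∑ a, ∑ b, phi k p q a b) ^ 2 := by
    simp only [Finset.sum_add_distrib]
    have e1 : ∑ a : Fin n, ∑ b : Fin n, ∑ _c : Fin n, ∑ _d : Fin n, ac p q a b =
        (n : ℤ) ^ 2 * ∑ a, ∑ b, ac p q a b := by
      simp only [Finset.sum_const, Finset.card_univ, Fintype.card_fin, nsmul_eq_mul,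
        Finset.mul_sum]
      refine Finset.sum_congr rfl fun a _ => Finset.sum_congr rfl fun b _ => ?_
      ring
    have e2 : ∑ _a : Fin n, ∑ _b : Fin n, ∑ c : Fin n, ∑ d : Fin n, ac p q c d =
        (n : ℤ) ^ 2 * ∑ a, ∑ b, ac p q a b := by
      simp only [Finset.sum_const, Finset.card_univ, Fintype.card_fin, nsmul_eq_mul]
      ring
    have e3 : ∑ a : Fin n, ∑ b : Fin n, ∑ c : Fin n, ∑ d : Fin n,
        ∑ k ∈ Finset.range 11, phi k p q a b * phi k p q c d =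
        ∑ k ∈ Finset.range 11, (∑ a, ∑ b, phi k p q a b) ^ 2 := by
      have : ∀ k, (∑ a, ∑ b, phi k p q a b) ^ 2 =
          ∑ a : Fin n, ∑ b : Fin n, ∑ c : Fin n, ∑ d : Fin n,
            phi k p q a b * phi k p q c d := by
        intro k
        rw [sq, Finset.sum_mul]
        refine Finset.sum_congr rfl fun a _ => ?_
        rw [Finset.sum_mul]
        refine Finset.sum_congr rfl fun b _ => ?_
        rw [Finset.mul_sum]
        refine Finset.sum_congr rfl fun c _ => ?_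
        rw [Finset.mul_sum]
      simp only [this]
      rw [Finset.sum_comm' (t' := Finset.univ) (s' := fun _ => Finset.range 11)
        (by simp)]
      refine Finset.sum_congr rfl fun a _ => ?_
      rw [Finset.sum_comm' (t' := Finset.univ) (s' := fun _ => Finset.range 11)
        (by simp)]
      refine Finset.sum_congr rfl fun b _ => ?_
      rw [Finset.sum_comm' (t' := Finset.univ) (s' := fun _ => Finset.range 11)
        (by simp)]
      refine Finset.sum_congr rfl fun c _ => ?_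
      rw [Finset.sum_comm' (t' := Finset.univ) (s' := fun _ => Finset.range 11)
        (by simp)]
    rw [e1, e2, e3]
    ring
  simp only
  rw [h1]
  have : 0 ≤ ∑ k ∈ Finset.range 11, (∑ a, ∑ b, phi k p q a b) ^ 2 :=
    Finset.sum_nonneg fun k _ => sq_nonneg _
  linarith

/-- terms with four common points -/
lemma s4_lower {n : ℕ} (psi : ℕ → Fin n → Fin n → Fin n → Fin n → Fin n → ℤ)
    (D : Fin n → Fin n → Fin n → Fin n → Fin n → Fin n → ℤ)
    (hD : D = fun a b c d u v =>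
      ∑ k ∈ Finset.range 11, psi k a b c d u * psi k a b c d v) :
    0 ≤ ∑ x : Fin 6 → Fin n, D (x 0) (x 1) (x 2) (x 3) (x 4) (x 5) := by
  rw [iter6, hD]
  refine Finset.sum_nonneg fun a _ => Finset.sum_nonneg fun b _ => Finset.sum_nonneg fun c _ =>
    Finset.sum_nonneg fun d _ => ?_
  have : ∑ u, ∑ v, ∑ k ∈ Finset.range 11, psi k a b c d u * psi k a b c d v =
      ∑ k ∈ Finset.range 11, (∑ u, psi k a b c d u) ^ 2 := by
    have h : ∀ k, (∑ u, psi k a b c d u) ^ 2 =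
        ∑ u : Fin n, ∑ v : Fin n, psi k a b c d u * psi k a b c d v := by
      intro k
      rw [sq, Finset.sum_mul]
      refine Finset.sum_congr rfl fun u _ => ?_
      rw [Finset.mul_sum]
    simp only [h]
    rw [Finset.sum_comm' (t' := Finset.univ) (s' := fun _ => Finset.range 11) (by simp)]
    refine Finset.sum_congr rfl fun a _ => ?_
    rw [Finset.sum_comm' (t' := Finset.univ) (s' := fun _ => Finset.range 11) (by simp)]
  simp only
  rw [this]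
  exact Finset.sum_nonneg fun k _ => sq_nonneg _

/-- number of tuples with two equal entries -/
lemma cnt_eq {n : ℕ} (i0 i1 i2 i3 i4 i5 : Fin 6)
    (h : Function.Bijective ![i0, i1, i2, i3, i4, i5]) :
    ∑ x : Fin 6 → Fin n, (if x i0 = x i1 then (1 : ℤ) else 0) = (n : ℤ) ^ 5 := by
  have := perm6 (α := Fin n) (fun a b _ _ _ _ => if a = b then (1 : ℤ) else 0)
    i0 i1 i2 i3 i4 i5 h
  rw [this, iter6 (α := Fin n) (fun a b _ _ _ _ => if a = b then (1 : ℤ) else 0)]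
  simp only [Finset.sum_const, Finset.card_univ, Fintype.card_fin, nsmul_eq_mul]
  simp only [← Finset.mul_sum, Finset.sum_ite_eq, Finset.mem_univ, if_true, mul_one,
    Finset.sum_const, Finset.card_univ, Fintype.card_fin, nsmul_eq_mul]
  ring

/-- crude upper bound for the sum of the sixty terms -/
lemma KT_le {α : Type} (D2 D4 : α → α → α → α → α → α → ℤ) (A B : ℤ)
    (h2 : ∀ p q a b c d, D2 p q a b c d ≤ A) (h4 : ∀ p q a b c d, D4 p q a b c d ≤ B)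
    (x0 x1 x2 x3 x4 x5 : α) : KT D2 D4 x0 x1 x2 x3 x4 x5 ≤ 45 * A + 15 * B := by
  unfold KT
  linarith [h2 x0 x1 x2 x3 x4 x5, h2 x0 x1 x2 x4 x3 x5, h2 x0 x1 x2 x5 x3 x4, h2 x0 x2 x1 x3 x4 x5, h2 x0 x2 x1 x4 x3 x5, h2 x0 x2 x1 x5 x3 x4, h2 x0 x3 x1 x2 x4 x5, h2 x0 x3 x1 x4 x2 x5, h2 x0 x3 x1 x5 x2 x4, h2 x0 x4 x1 x2 x3 x5, h2 x0 x4 x1 x3 x2 x5, h2 x0 x4 x1 x5 x2 x3, h2 x0 x5 x1 x2 x3 x4, h2 x0 x5 x1 x3 x2 x4, h2 x0 x5 x1 x4 x2 x3, h2 x1 x2 x0 x3 x4 x5, h2 x1 x2 x0 x4 x3 x5, h2 x1 x2 x0 x5 x3 x4, h2 x1 x3 x0 x2 x4 x5, h2 x1 x3 x0 x4 x2 x5, h2 x1 x3 x0 x5 x2 x4, h2 x1 x4 x0 x2 x3 x5, h2 x1 x4 x0 x3 x2 x5, h2 x1 x4 x0 x5 x2 x3, h2 x1 x5 x0 x2 x3 x4, h2 x1 x5 x0 x3 x2 x4, h2 x1 x5 x0 x4 x2 x3, h2 x2 x3 x0 x1 x4 x5, h2 x2 x3 x0 x4 x1 x5, h2 x2 x3 x0 x5 x1 x4, h2 x2 x4 x0 x1 x3 x5, h2 x2 x4 x0 x3 x1 x5, h2 x2 x4 x0 x5 x1 x3, h2 x2 x5 x0 x1 x3 x4, h2 x2 x5 x0 x3 x1 x4, h2 x2 x5 x0 x4 x1 x3, h2 x3 x4 x0 x1 x2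 x5, h2 x3 x4 x0 x2 x1 x5, h2 x3 x4 x0 x5 x1 x2, h2 x3 x5 x0 x1 x2 x4, h2 x3 x5 x0 x2 x1 x4, h2 x3 x5 x0 x4 x1 x2, h2 x4 x5 x0 x1 x2 x3, h2 x4 x5 x0 x2 x1 x3, h2 x4 x5 x0 x3 x1 x2, h4 x2 x3 x4 x5 x0 x1, h4 x1 x3 x4 x5 x0 x2, h4 x1 x2 x4 x5 x0 x3, h4 x1 x2 x3 x5 x0 x4, h4 x1 x2 x3 x4 x0 x5, h4 x0 x3 x4 x5 x1 x2, h4 x0 x2 x4 x5 x1 x3, h4 x0 x2 x3 x5 x1 x4, h4 x0 x2 x3 x4 x1 x5, h4 x0 x1 x4 x5 x2 x3, h4 x0 x1 x3 x5 x2 x4, h4 x0 x1 x3 x4 x2 x5, h4 x0 x1 x2 x5 x3 x4, h4 x0 x1 x2 x4 x3 x5, h4 x0 x1 x2 x3 x4 x5]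

/-- the number of indices with two equal entries bounds the indicator -/
lemma ind_le {n : ℕ} (x : Fin 6 → Fin n)
    (h : ¬ Dis6 (x 0) (x 1) (x 2) (x 3) (x 4) (x 5)) :
    (1 : ℤ) ≤ (if x 0 = x 1 then (1 : ℤ) else 0) + (if x 0 = x 2 then (1 : ℤ) else 0) + (if x 0 = x 3 then (1 : ℤ) else 0) + (if x 0 = x 4 then (1 : ℤ) else 0) + (if x 0 = x 5 then (1 : ℤ) else 0) + (if x 1 = x 2 then (1 : ℤ) else 0) + (if x 1 = x 3 then (1 : ℤ) else 0) + (if x 1 = x 4 then (1 : ℤ) else 0) + (if x 1 = x 5 then (1 : ℤ) else 0) + (if x 2 = x 3 then (1 : ℤ) else 0) + (if x 2 = x 4 then (1 : ℤ) else 0) + (if x 2 = x 5 then (1 : ℤ) else 0) + (if x 3 = x 4 then (1 : ℤ) else 0) + (if x 3 = x 5 then (1 : ℤ) else 0) + (if x 4 = x 5 then (1 : ℤ) else 0) := by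
  have h01 : (0 : ℤ) ≤ (if x 0 = x 1 then (1 : ℤ) else 0) := by split_ifs <;> norm_num
  have h02 : (0 : ℤ) ≤ (if x 0 = x 2 then (1 : ℤ) else 0) := by split_ifs <;> norm_num
  have h03 : (0 : ℤ) ≤ (if x 0 = x 3 then (1 : ℤ) else 0) := by split_ifs <;> norm_num
  have h04 : (0 : ℤ) ≤ (if x 0 = x 4 then (1 : ℤ) else 0) := by split_ifs <;> norm_num
  have h05 : (0 : ℤ) ≤ (if x 0 = x 5 then (1 : ℤ) else 0) := by split_ifs <;> norm_num
  have h12 : (0 : ℤ) ≤ (if x 1 = x 2 then (1 : ℤ) else 0) := by split_ifs <;> norm_num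
  have h13 : (0 : ℤ) ≤ (if x 1 = x 3 then (1 : ℤ) else 0) := by split_ifs <;> norm_num
  have h14 : (0 : ℤ) ≤ (if x 1 = x 4 then (1 : ℤ) else 0) := by split_ifs <;> norm_num
  have h15 : (0 : ℤ) ≤ (if x 1 = x 5 then (1 : ℤ) else 0) := by split_ifs <;> norm_num
  have h23 : (0 : ℤ) ≤ (if x 2 = x 3 then (1 : ℤ) else 0) := by split_ifs <;> norm_num
  have h24 : (0 : ℤ) ≤ (if x 2 = x 4 then (1 : ℤ) else 0) := by split_ifs <;> norm_num
  have h25 : (0 : ℤ) ≤ (if x 2 = x 5 then (1 : ℤ) else 0) := by split_ifs <;> norm_num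
  have h34 : (0 : ℤ) ≤ (if x 3 = x 4 then (1 : ℤ) else 0) := by split_ifs <;> norm_num
  have h35 : (0 : ℤ) ≤ (if x 3 = x 5 then (1 : ℤ) else 0) := by split_ifs <;> norm_num
  have h45 : (0 : ℤ) ≤ (if x 4 = x 5 then (1 : ℤ) else 0) := by split_ifs <;> norm_num
  by_contra hc
  push Not at hc
  apply h
  unfold Dis6
  refine ⟨fun e => ?_, fun e => ?_, fun e => ?_, fun e => ?_, fun e => ?_, fun e => ?_, fun e => ?_, fun e => ?_, fun e => ?_, fun e => ?_, fun e => ?_, fun e => ?_, fun e => ?_, fun e => ?_, fun e => ?_⟩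
  · rw [if_pos e] at hc; linarith
  · rw [if_pos e] at hc; linarith
  · rw [if_pos e] at hc; linarith
  · rw [if_pos e] at hc; linarith
  · rw [if_pos e] at hc; linarith
  · rw [if_pos e] at hc; linarith
  · rw [if_pos e] at hc; linarith
  · rw [if_pos e] at hc; linarith
  · rw [if_pos e] at hc; linarith
  · rw [if_pos e] at hc; linarith
  · rw [if_pos e] at hc; linarith
  · rw [if_pos e] at hc; linarith
  · rw [if_pos e] at hc; linarith
  · rw [if_pos e] at hc; linarith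
  · rw [if_pos e] at hc; linarith

/-- the count of tuples with two equal entries -/
lemma cnt_all {n : ℕ} : ∑ x : Fin 6 → Fin n, ((if x 0 = x 1 then (1 : ℤ) else 0) + (if x 0 = x 2 then (1 : ℤ) else 0) + (if x 0 = x 3 then (1 : ℤ) else 0) + (if x 0 = x 4 then (1 : ℤ) else 0) + (if x 0 = x 5 then (1 : ℤ) else 0) + (if x 1 = x 2 then (1 : ℤ) else 0) + (if x 1 = x 3 then (1 : ℤ) else 0) + (if x 1 = x 4 then (1 : ℤ) else 0) + (if x 1 = x 5 then (1 : ℤ) else 0) + (if x 2 = x 3 then (1 : ℤ) else 0) + (if x 2 = x 4 then (1 : ℤ) else 0) + (if x 2 = x 5 then (1 : ℤ) else 0) + (if x 3 = x 4 then (1 : ℤ) else 0) + (if x 3 = x 5 then (1 : ℤ) else 0) + (if x 4 = x 5 then (1 : ℤ) else 0)) = 15 * (n : ℤ) ^ 5 := by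
  simp only [Finset.sum_add_distrib]
  rw [cnt_eq 0 1 2 3 4 5 (by decide), cnt_eq 0 2 1 3 4 5 (by decide), cnt_eq 0 3 1 2 4 5 (by decide), cnt_eq 0 4 1 2 3 5 (by decide), cnt_eq 0 5 1 2 3 4 (by decide), cnt_eq 1 2 0 3 4 5 (by decide), cnt_eq 1 3 0 2 4 5 (by decide), cnt_eq 1 4 0 2 3 5 (by decide), cnt_eq 1 5 0 2 3 4 (by decide), cnt_eq 2 3 0 1 4 5 (by decide), cnt_eq 2 4 0 1 3 5 (by decide), cnt_eq 2 5 0 1 3 4 (by decide), cnt_eq 3 4 0 1 2 5 (by decide), cnt_eq 3 5 0 1 2 4 (by decide), cnt_eq 4 5 0 1 2 3 (by decide)]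
  ring

/-- upper bound for the total -/
lemma total_upper {n : ℕ} (K : Fin n → Fin n → Fin n → Fin n → Fin n → Fin n → ℤ) (Λ M : ℤ)
    (hΛ : 0 ≤ Λ) (hM : 0 ≤ M) (h1 : ∀ x0 x1 x2 x3 x4 x5, K x0 x1 x2 x3 x4 x5 ≤ M)
    (h2 : ∀ x0 x1 x2 x3 x4 x5, Dis6 x0 x1 x2 x3 x4 x5 → K x0 x1 x2 x3 x4 x5 ≤ Λ) :
    ∑ x : Fin 6 → Fin n, K (x 0) (x 1) (x 2) (x 3) (x 4) (x 5) ≤
      Λ * (n : ℤ) ^ 6 + 15 * M * (n : ℤ) ^ 5 := by
  have h : ∀ x : Fin 6 → Fin n, K (x 0) (x 1) (x 2) (x 3) (x 4) (x 5) ≤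
      Λ + M * ((if x 0 = x 1 then (1 : ℤ) else 0) + (if x 0 = x 2 then (1 : ℤ) else 0) + (if x 0 = x 3 then (1 : ℤ) else 0) + (if x 0 = x 4 then (1 : ℤ) else 0) + (if x 0 = x 5 then (1 : ℤ) else 0) + (if x 1 = x 2 then (1 : ℤ) else 0) + (if x 1 = x 3 then (1 : ℤ) else 0) + (if x 1 = x 4 then (1 : ℤ) else 0) + (if x 1 = x 5 then (1 : ℤ) else 0) + (if x 2 = x 3 then (1 : ℤ) else 0) + (if x 2 = x 4 then (1 : ℤ) else 0) + (if x 2 = x 5 then (1 : ℤ) else 0) + (if x 3 = x 4 then (1 : ℤ) else 0) + (if x 3 = x 5 then (1 : ℤ) else 0) + (if x 4 = x 5 then (1 : ℤ) else 0)) := by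
    intro x
    by_cases hd : Dis6 (x 0) (x 1) (x 2) (x 3) (x 4) (x 5)
    · have := h2 _ _ _ _ _ _ hd
      have h0 : (0 : ℤ) ≤ (if x 0 = x 1 then (1 : ℤ) else 0) + (if x 0 = x 2 then (1 : ℤ) else 0) + (if x 0 = x 3 then (1 : ℤ) else 0) + (if x 0 = x 4 then (1 : ℤ) else 0) + (if x 0 = x 5 then (1 : ℤ) else 0) + (if x 1 = x 2 then (1 : ℤ) else 0) + (if x 1 = x 3 then (1 : ℤ) else 0) + (if x 1 = x 4 then (1 : ℤ) else 0) + (if x 1 = x 5 then (1 : ℤ) else 0) + (if x 2 = x 3 then (1 : ℤ) else 0) + (if x 2 = x 4 then (1 : ℤ) else 0) + (if x 2 = x 5 then (1 : ℤ) else 0) + (if x 3 = x 4 then (1 : ℤ) else 0) + (if x 3 = x 5 then (1 : ℤ) else 0) + (if x 4 = x 5 then (1 : ℤ) else 0) := by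
        positivity
      nlinarith [mul_nonneg hM h0]
    · have h3 := h1 (x 0) (x 1) (x 2) (x 3) (x 4) (x 5)
      have h0 := ind_le x hd
      nlinarith [mul_le_mul_of_nonneg_left h0 hM]
  refine (Finset.sum_le_sum fun x _ => h x).trans ?_
  rw [Finset.sum_add_distrib, ← Finset.mul_sum, cnt_all]
  simp only [Finset.sum_const, Finset.card_univ, Fintype.card_fun, Fintype.card_fin,
    nsmul_eq_mul]
  push_cast
  apply le_of_eq
  ring

/-- four distinct points -/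
def Dis4 {α : Type} (i j k l : α) : Prop :=
  i ≠ j ∧ i ≠ k ∧ i ≠ l ∧ j ≠ k ∧ j ≠ l ∧ k ≠ l

open Classical in
/-- indicator of four distinct points whose first three have `T` -/
noncomputable def W {α : Type} (T : α → α → α → Prop) (i j k l : α) : ℤ :=
  if Dis4 i j k l ∧ T i j k then 1 else 0

open Classical in
lemma cnt3_sum {n : ℕ} (T : Fin n → Fin n → Fin n → Prop) :
    (cnt3 T : ℤ) = ∑ i, ∑ j, ∑ k, (if i ≠ j ∧ i ≠ k ∧ j ≠ k ∧ T i j k then (1 : ℤ) else 0) := by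
  unfold cnt3
  rw [Nat.card_eq_fintype_card, Fintype.card_subtype, Finset.card_filter]
  push_cast
  rw [Fintype.sum_prod_type]
  simp only [Fintype.sum_prod_type]

open Classical in
lemma W_sum {n : ℕ} (T : Fin n → Fin n → Fin n → Prop) :
    ∑ x : Fin 4 → Fin n, W T (x 0) (x 1) (x 2) (x 3) = ((n : ℤ) - 3) * cnt3 T := by
  rw [iter4, cnt3_sum, Finset.mul_sum]
  refine Finset.sum_congr rfl fun i _ => ?_
  rw [Finset.mul_sum]
  refine Finset.sum_congr rfl fun j _ => ?_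
  rw [Finset.mul_sum]
  refine Finset.sum_congr rfl fun k _ => ?_
  by_cases h : i ≠ j ∧ i ≠ k ∧ j ≠ k ∧ T i j k
  · rw [if_pos h, mul_one]
    obtain ⟨h1, h2, h3, h4⟩ := h
    have e : ∀ l, W T i j k l = 1 - (if l ∈ ({i, j, k} : Finset (Fin n)) then (1 : ℤ) else 0) := by
      intro l
      unfold W Dis4
      by_cases hl : l ∈ ({i, j, k} : Finset (Fin n))
      · rw [if_pos hl, if_neg]
        · norm_num
        · rintro ⟨⟨-, -, a, -, b, c⟩, -⟩
          simp only [Finset.mem_insert, Finset.mem_singleton] at hl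
          rcases hl with rfl | rfl | rfl
          · exact a rfl
          · exact b rfl
          · exact c rfl
      · rw [if_neg hl, if_pos]
        · norm_num
        · simp only [Finset.mem_insert, Finset.mem_singleton, not_or] at hl
          exact ⟨⟨h1, h2, fun e => hl.1 e.symm, h3, fun e => hl.2.1 e.symm,
            fun e => hl.2.2 e.symm⟩, h4⟩
    rw [Finset.sum_congr rfl fun l _ => e l, Finset.sum_sub_distrib]
    simp only [Finset.sum_const, Finset.card_univ, Fintype.card_fin, nsmul_eq_mul, mul_one,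
      Finset.sum_ite_mem, Finset.univ_inter]
    rw [Finset.card_insert_of_notMem, Finset.card_insert_of_notMem, Finset.card_singleton]
    · norm_num
    · simpa using h3
    · simp only [Finset.mem_insert, Finset.mem_singleton, not_or]
      exact ⟨h1, h2⟩
  · rw [if_neg h, mul_zero]
    refine Finset.sum_eq_zero fun l _ => ?_
    unfold W Dis4
    rw [if_neg]
    rintro ⟨⟨a, b, -, c, -, -⟩, d⟩
    exact h ⟨a, b, c, d⟩

open Classical in
/-- lower bound for the number of acute triples -/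
lemma ac_lower {n : ℕ} (T : Fin n → Fin n → Fin n → Prop)
    (ac : Fin n → Fin n → Fin n → Fin n → ℤ) (h0 : ∀ p q a b, 0 ≤ ac p q a b)
    (h : ∀ i j k l : Fin n, i ≠ j → i ≠ k → i ≠ l → j ≠ k → j ≠ l → k ≠ l →
    2 ^ 26 * ((if T i j k then (1 : ℤ) else 0) + (if T i j l then (1 : ℤ) else 0) +
      (if T i k l then (1 : ℤ) else 0) + (if T j k l then (1 : ℤ) else 0)) ≤ ac i j k l) :
    2 ^ 26 * (4 * (((n : ℤ) - 3) * cnt3 T)) ≤
      ∑ x : Fin 4 → Fin n, ac (x 0) (x 1) (x 2) (x 3) := by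
  have e : ∀ i j k l : Fin n, 2 ^ 26 * (W T i j k l + W T i j l k + W T i k l j + W T j k l i) ≤
      ac i j k l := by
    intro i j k l
    by_cases hd : Dis4 i j k l
    · obtain ⟨a, b, c, d, f, g⟩ := hd
      refine le_trans (le_of_eq ?_) (h i j k l a b c d f g)
      have w1 : W T i j k l = if T i j k then (1 : ℤ) else 0 := by
        unfold W Dis4; simp [a, b, c, d, f, g]
      have w2 : W T i j l k = if T i j l then (1 : ℤ) else 0 := by
        unfold W Dis4; simp [a, b, c, d, f, g.symm]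
      have w3 : W T i k l j = if T i k l then (1 : ℤ) else 0 := by
        unfold W Dis4; simp [a, b, c, d.symm, f.symm, g]
      have w4 : W T j k l i = if T j k l then (1 : ℤ) else 0 := by
        unfold W Dis4; simp [a.symm, b.symm, c.symm, d, f, g]
      rw [w1, w2, w3, w4]
    · refine le_trans (le_of_eq ?_) (h0 i j k l)
      have w1 : W T i j k l = 0 := by
        unfold W; rw [if_neg]; rintro ⟨h, -⟩; exact hd h
      have w2 : W T i j l k = 0 := by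
        unfold W; rw [if_neg]; rintro ⟨⟨a, b, c, d, f, g⟩, -⟩; exact hd ⟨a, c, b, f, d, g.symm⟩
      have w3 : W T i k l j = 0 := by
        unfold W; rw [if_neg]; rintro ⟨⟨a, b, c, d, f, g⟩, -⟩
        exact hd ⟨c, a, b, f.symm, g.symm, d⟩
      have w4 : W T j k l i = 0 := by
        unfold W; rw [if_neg]; rintro ⟨⟨a, b, c, d, f, g⟩, -⟩
        exact hd ⟨c.symm, f.symm, g.symm, a, b, d⟩
      rw [w1, w2, w3, w4]
      norm_num
  refine le_trans (le_of_eq ?_) (Finset.sum_le_sum fun x _ => e (x 0) (x 1) (x 2) (x 3))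
  rw [← Finset.mul_sum, Finset.sum_add_distrib, Finset.sum_add_distrib, Finset.sum_add_distrib]
  rw [perm4 (W T) 0 1 3 2 (by decide), perm4 (W T) 0 2 3 1 (by decide),
    perm4 (W T) 1 2 3 0 (by decide), W_sum]
  ring

/-- Packet AVG. -/
theorem avg : AvgStmt := by
  intro n T Λ phi ac psi hΛ hphi hpsi hac0 hac hT hK
  have hD2 : ∀ p q a b c d : Fin n, (fun p q a b c d => ac p q a b + ac p q c d +
        ∑ k ∈ Finset.range 11, phi k p q a b * phi k p q c d) p q a b c d ≤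
        2 * 2 ^ 28 + 11 * 2 ^ 34 := by
    intro p q a b c d
    have h1 : ∑ k ∈ Finset.range 11, phi k p q a b * phi k p q c d ≤ 11 * 2 ^ 34 := by
      refine (Finset.sum_le_card_nsmul _ _ (2 ^ 34) fun k _ => ?_).trans ?_
      · refine (le_abs_self _).trans ?_
        rw [abs_mul]
        refine (mul_le_mul (hphi _ _ _ _ _) (hphi _ _ _ _ _) (abs_nonneg _)
          (by norm_num)).trans ?_
        norm_num
      · rw [Finset.card_range]; norm_num
    have h2 := hac p q a b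
    have h3 := hac p q c d
    simp only
    linarith
  have hD4 : ∀ a b c d u v : Fin n, (fun a b c d u v => ∑ k ∈ Finset.range 11,
        psi k a b c d u * psi k a b c d v) a b c d u v ≤ 11 * 2 ^ 34 := by
    intro a b c d u v
    refine (Finset.sum_le_card_nsmul _ _ (2 ^ 34) fun k _ => ?_).trans ?_
    · refine (le_abs_self _).trans ?_
      rw [abs_mul]
      refine (mul_le_mul (hpsi _ _ _ _ _ _) (hpsi _ _ _ _ _ _) (abs_nonneg _)
        (by norm_num)).trans ?_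
      norm_num
    · rw [Finset.card_range]; norm_num
  have hup := total_upper (KT (fun p q a b c d => ac p q a b + ac p q c d +
        ∑ k ∈ Finset.range 11, phi k p q a b * phi k p q c d)
      (fun a b c d u v => ∑ k ∈ Finset.range 11, psi k a b c d u * psi k a b c d v)) Λ (2 ^ 44)
      hΛ (by norm_num) (fun x0 x1 x2 x3 x4 x5 => by
        refine (KT_le _ _ _ _ hD2 hD4 x0 x1 x2 x3 x4 x5).trans ?_
        norm_num) hK
  rw [sum_KT] at hup
  have h2 := s2_lower phi ac _ rfl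
  have h4 := s4_lower psi _ rfl
  have h3 := ac_lower T ac hac0 hT
  have hn : (0 : ℤ) ≤ (n : ℤ) ^ 2 := by positivity
  have h5 := mul_le_mul_of_nonneg_left h3 (mul_nonneg (by norm_num : (0 : ℤ) ≤ 90) hn)
  have hn5 : (0 : ℤ) ≤ (n : ℤ) ^ 5 := by positivity
  have h6 : 15 * 2 ^ 44 * (n : ℤ) ^ 5 ≤ 2 ^ 60 * (n : ℤ) ^ 5 := by
    nlinarith [hn5]
  have e1 : 360 * 2 ^ 26 * ((n : ℤ) ^ 2 * ((n : ℤ) - 3) * cnt3 T) =
    90 * (n : ℤ) ^ 2 * (2 ^ 26 * (4 * (((n : ℤ) - 3) * cnt3 T))) := by ring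
  rw [e1]
  linarith

end Pool.Agent.Helper74.Ac
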